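import Mathlib
import Pool.Agent.U310.PV.Final

set_option autoImplicit false

/-!
# The permanent of a random matrix over a finite field of odd order vanishes with probability 1/q + o(1)

Idea of proof. For an `(m+2) × m` matrix `B` let `M` be the symmetric matrix whose entry `(s,t)` is
the permanent of `B` without the rows `s` and `t` (zero for `s = t`). A further column `v` leaves
the permanental rank non-full iff `M v = 0`, an event of probability `q ^ (- rank M)`. Two rows of
`M` are equal with probability exactly the probability that an `(m+1) × m` matrix does not have full
permanental rank. As the rows of `M` correspond to isotropic vectors of a nondegenerate quadratic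
form on a space of dimension `rank M`, of which there are at most `2 q ^ (rank M - 1)`, the
expected number of pairs of equal rows bounds the expectation of `q ^ (- rank M)`. Together with
the usual recursion for the rank this forces the failure probabilities to tend to zero.
-/

open Filter Topology

namespace Pool.Agent.Results.MP_b575e9_co.VanishingProbability

/-- For every finite field `F` with an odd number `q` of elements, the proportion of the `n × n`
matrices over `F` with zero permanent tends to `1 / q`. -/
theorem result (F : Type*) [Field F] [Finite F] (hF : Odd (Nat.card F)) :
    Tendsto (fun n : ℕ => (Nat.card {A : Matrix (Fin n) (Fin n) F // A.permanent = 0} : ℝ) /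
      Nat.card (Matrix (Fin n) (Fin n) F)) atTop (𝓝 (1 / Nat.card F)) := by
  classical
  haveI : Fintype F := Fintype.ofFinite F
  rw [Nat.card_eq_fintype_card] at hF ⊢
  have h2 : (2 : F) ≠ 0 := by
    intro h
    obtain ⟨k, hk⟩ := hF
    have h1 := FiniteField.cast_card_eq_zero F
    rw [hk] at h1
    push_cast at h1
    rw [h, zero_mul, zero_add] at h1
    exact one_ne_zero h1
  refine (Pool.Agent.U310.PV.tendsto_square h2).congr fun n => ?_
  unfold Pool.Agent.U310.PV.D Pool.Agent.U310.PV.N
  have e1 : (Finset.univ.filter fun B : Matrix (Fin n) (Fin n) F =>
      ¬ Pool.Agent.U310.PV.NZ n B).card =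
      Nat.card {A : Matrix (Fin n) (Fin n) F // A.permanent = 0} := by
    rw [Nat.card_eq_fintype_card, Fintype.card_subtype]
    congr 1
    ext A
    simp only [Finset.mem_filter, Finset.mem_univ, true_and]
    exact Pool.Agent.U310.PV.not_NZ_square A
  have e2 : Nat.card (Matrix (Fin n) (Fin n) F) = Fintype.card F ^ (n * n) := by
    rw [Nat.card_eq_fintype_card, Pool.Agent.U310.PV.card_matrix]
  rw [← e1, e2, Nat.cast_pow]

end Pool.Agent.Results.MP_b575e9_co.VanishingProbability
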